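import Pool.Agent.L0h5.TU.Stm

/-!
# Project TU, module L: from the boxes to the families
-/

set_option autoImplicit false

namespace Pool.Agent.LLead.TU

open Finset Filter Pool.Agent.L0h5.TU

lemma geo {D : ℝ} (hD : 2 ≤ D) (n : ℕ) : ∑ i ∈ range n, D ^ i ≤ D ^ n := by
  induction n with
  | zero => simp
  | succ n ih =>
    rw [sum_range_succ, pow_succ]
    have : (0 : ℝ) < D ^ n := by positivity
    nlinarith

/-- weighted averages of a sequence that tends to zero -/
lemma wavg {D : ℝ} (hD : 2 ≤ D) {ε : ℕ → ℝ} (h0 : ∀ i, 0 ≤ ε i) (hε : Tendsto ε atTop (nhds 0)) :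
    Tendsto (fun n : ℕ => (∑ i ∈ range (n + 2), ε i * D ^ i) / D ^ n) atTop (nhds 0) := by
  obtain ⟨M, hM⟩ := hε.bddAbove_range
  have hM' : ∀ i, ε i ≤ M := fun i => hM ⟨i, rfl⟩
  have hD0 : (0 : ℝ) < D := by linarith
  rw [Metric.tendsto_atTop]
  intro δ hδ
  obtain ⟨N, hN⟩ := (Metric.tendsto_atTop.1 hε) (δ / (2 * D ^ 2)) (by positivity)
  have hsmall : ∀ i, N ≤ i → ε i ≤ δ / (2 * D ^ 2) := by
    intro i hi
    have := hN i hi
    rw [Real.dist_eq, sub_zero, abs_of_nonneg (h0 i)] at this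
    exact this.le
  obtain ⟨n1, hn1⟩ : ∃ n1 : ℕ, (|M| * D ^ N) / (δ / 2) < D ^ n1 :=
    pow_unbounded_of_one_lt _ (by linarith)
  refine ⟨n1, fun n hn => ?_⟩
  have hsn : 0 ≤ ∑ i ∈ range (n + 2), ε i * D ^ i :=
    sum_nonneg fun i _ => mul_nonneg (h0 i) (by positivity)
  rw [Real.dist_eq, sub_zero, abs_of_nonneg (div_nonneg hsn (by positivity)),
    div_lt_iff₀ (by positivity)]
  have h1 : ∑ i ∈ range (n + 2), ε i * D ^ i ≤
      ∑ i ∈ range (n + 2), ((if i < N then |M| * D ^ i else 0) + δ / (2 * D ^ 2) * D ^ i) := by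
    apply sum_le_sum
    intro i _
    have p1 : (0 : ℝ) < D ^ i := by positivity
    split_ifs with hi
    · have a1 := mul_le_mul_of_nonneg_right ((hM' i).trans (le_abs_self M)) p1.le
      have a2 : 0 ≤ δ / (2 * D ^ 2) * D ^ i := by positivity
      linarith
    · have := mul_le_mul_of_nonneg_right (hsmall i (not_lt.1 hi)) p1.le
      linarith
  have h2 : ∑ i ∈ range (n + 2), ((if i < N then |M| * D ^ i else 0) + δ / (2 * D ^ 2) * D ^ i) ≤
      |M| * D ^ N + δ / (2 * D ^ 2) * D ^ (n + 2) := by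
    rw [sum_add_distrib, ← mul_sum]
    apply add_le_add
    · rw [← sum_filter, ← mul_sum]
      apply mul_le_mul_of_nonneg_left _ (abs_nonneg M)
      refine le_trans ?_ (geo hD N)
      apply sum_le_sum_of_subset_of_nonneg
      · intro i hi
        exact mem_range.2 (mem_filter.1 hi).2
      · intro i _ _; positivity
    · exact mul_le_mul_of_nonneg_left (geo hD _) (by positivity)
  have h3 : δ / (2 * D ^ 2) * D ^ (n + 2) = δ / 2 * D ^ n := by
    rw [pow_add]
    field_simp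
  have h4 : |M| * D ^ N < δ / 2 * D ^ n := by
    have h6 : (|M| * D ^ N) / (δ / 2) < D ^ n :=
      hn1.trans_le (pow_le_pow_right₀ (by linarith) hn)
    rw [div_lt_iff₀ (by positivity)] at h6
    linarith
  linarith

lemma sum_cover {ι : Type*} (S : Finset ι) (n : ℕ) (f : ι → ℝ) (hf : ∀ x, 0 ≤ f x)
    (Q : ℕ → ι → Prop) [∀ i, DecidablePred (Q i)] (h : ∀ x ∈ S, ∃ i ∈ range n, Q i x) :
    ∑ x ∈ S, f x ≤ ∑ i ∈ range n, ∑ x ∈ S.filter (fun x => Q i x), f x := by
  have h2 : ∀ x ∈ S, f x ≤ ∑ i ∈ range n, (if Q i x then f x else 0) := by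
    intro x hx
    obtain ⟨i, hi, hq⟩ := h x hx
    have h3 : f x = if Q i x then f x else 0 := by rw [if_pos hq]
    have h4 : (if Q i x then f x else 0) ≤ ∑ i ∈ range n, (if Q i x then f x else 0) := by
      apply single_le_sum (f := fun i => if Q i x then f x else 0) _ hi
      intro j _
      show 0 ≤ if Q j x then f x else 0
      split_ifs
      · exact hf x
      · exact le_rfl
    exact h3.le.trans h4
  refine (sum_le_sum h2).trans ?_
  rw [sum_comm]
  apply sum_le_sum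
  intro i _
  rw [sum_filter]

/-- **L** -/
theorem asm : S2_ASM := by
  classical
  intro Cf Bx k d r r' hk hd hmono ⟨Cb, hCb⟩ ⟨C, F, hF⟩ ⟨c, C1, T0, hc, hlow⟩ ⟨Ty, hTy, hlim, hmom⟩
  -- the scales
  set b := 2 ^ k with hb
  have hb1 : 1 < b := Nat.one_lt_two_pow (by omega)
  have hb2 : 2 ≤ b := hb1
  set D : ℝ := 2 ^ d with hD
  have hD2 : 2 ≤ D := by
    rw [hD]
    calc (2 : ℝ) = 2 ^ 1 := by norm_num
      _ ≤ 2 ^ d := pow_le_pow_right₀ (by norm_num) hd
  have hD0 : 0 < D := by linarith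
  set m := C with hm
  have hTi : ∀ i : ℕ, C * b ^ i < (2 ^ (i + m) + 1) ^ k := by
    intro i
    have a1 : C < 2 ^ m := Nat.lt_two_pow_self
    have a2 : (2 : ℕ) ^ m ≤ 2 ^ (m * k) := Nat.pow_le_pow_right (by norm_num) (Nat.le_mul_of_pos_right m hk)
    calc C * b ^ i < 2 ^ (m * k) * b ^ i :=
          Nat.mul_lt_mul_of_pos_right (a1.trans_le a2) (by positivity)
      _ = (2 ^ (i + m)) ^ k := by
          rw [hb, ← pow_mul, ← pow_mul, ← pow_add]
          congr 1
          ring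
      _ ≤ _ := Nat.pow_le_pow_left (by omega) k
  have hTd : ∀ i : ℕ, (((2 ^ (i + m) : ℕ) : ℝ)) ^ d = 2 ^ (m * d) * D ^ i := by
    intro i
    rw [hD]
    push_cast
    rw [← pow_mul, ← pow_mul, ← pow_add]
    congr 1
    ring
  -- a lower bound
  have hden : ∃ (c' : ℝ) (n0 : ℕ), 0 < c' ∧ ∀ n, n0 ≤ n → ∀ H : ℕ, b ^ n ≤ H →
      c' * D ^ n ≤ ((Cf H).card : ℝ) := by
    refine ⟨c / D ^ C1, C1 + T0, by positivity, fun n hn H hH => ?_⟩
    have h1 : T0 ≤ 2 ^ (n - C1) :=
      (Nat.lt_two_pow_self.le).trans (Nat.pow_le_pow_right (by norm_num) (by omega))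
    have h2 : C1 * (2 ^ (n - C1)) ^ k ≤ H := by
      have a1 : C1 ≤ b ^ C1 := (Nat.lt_pow_self hb1).le
      calc C1 * (2 ^ (n - C1)) ^ k ≤ b ^ C1 * (2 ^ (n - C1)) ^ k := Nat.mul_le_mul_right _ a1
        _ = b ^ C1 * b ^ (n - C1) := by
            congr 1
            rw [hb, ← pow_mul, ← pow_mul, mul_comm]
        _ = b ^ n := by rw [← pow_add]; congr 1; omega
        _ ≤ H := hH
    have h3 := hlow _ H h1 h2
    refine le_trans (le_of_eq ?_) h3
    push_cast
    have h4 : D ^ n = D ^ C1 * D ^ (n - C1) := by rw [← pow_add]; congr 1; omega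
    have h5 : ((2 : ℝ) ^ (n - C1)) ^ d = D ^ (n - C1) := by
      rw [hD, ← pow_mul, ← pow_mul, mul_comm]
    rw [h4, h5]
    field_simp
  obtain ⟨c', n0, hc', hlow'⟩ := hden
  -- the set
  let A : Set (ℤ × ℤ) :=
    {x | ∃ i, x ∈ Cf (b ^ i) ∧ F x ∈ Ty (2 ^ (i + m)) ∧ ∀ j < i, x ∉ Cf (b ^ j)}
  have hlog : ∀ H : ℕ, H ≤ b ^ (Nat.log b H + 1) := fun H => (Nat.lt_pow_succ_log_self hb1 H).le
  have hidx : ∀ (H : ℕ) (x : ℤ × ℤ), x ∈ Cf H → ∃ i, i < Nat.log b H + 2 ∧
      x ∈ Cf (b ^ i) ∧ ∀ j < i, x ∉ Cf (b ^ j) := by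
    intro H x hx
    have hex : ∃ i, x ∈ Cf (b ^ i) := ⟨_, hmono _ _ (hlog H) hx⟩
    refine ⟨Nat.find hex, ?_, Nat.find_spec hex, fun j hj => Nat.find_min hex hj⟩
    exact Nat.lt_succ_of_le (Nat.find_min' hex (hmono _ _ (hlog H) hx))
  have hout : ∀ (H : ℕ) (x : ℤ × ℤ), x ∈ Cf H → x ∉ A → ∃ i ∈ range (Nat.log b H + 2),
      x ∈ (Cf (b ^ i)).filter (fun x => F x ∉ Ty (2 ^ (i + m))) := by
    intro H x hx hA
    obtain ⟨i, h1, h2, h3⟩ := hidx H x hx
    exact ⟨i, mem_range.2 h1, mem_filter.2 ⟨h2, fun h4 => hA ⟨i, h2, h4, h3⟩⟩⟩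
  have hin : ∀ (H : ℕ) (x : ℤ × ℤ), x ∈ Cf H → x ∈ A → ∃ i ∈ range (Nat.log b H + 2),
      x ∈ (Cf (b ^ i)).filter (fun x => F x ∈ Ty (2 ^ (i + m))) := by
    intro H x hx hA
    obtain ⟨i, h4, h5, h6⟩ := hA
    obtain ⟨i', h1, h2, h3⟩ := hidx H x hx
    have h7 : i = i' := by
      rcases lt_trichotomy i i' with h | h | h
      · exact absurd h4 (h3 i h)
      · exact h
      · exact absurd h2 (h6 i' h)
    exact ⟨i, mem_range.2 (h7 ▸ h1), mem_filter.2 ⟨h4, h5⟩⟩
  refine ⟨A, ?_, ?_⟩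
  · -- density one
    set ε : ℕ → ℝ := fun i =>
      ((Bx (2 ^ (i + m)) \ Ty (2 ^ (i + m))).card : ℝ) / (((2 ^ (i + m) : ℕ) : ℝ)) ^ d with hε
    have hε0 : Tendsto ε atTop (nhds 0) := by
      have h1 : Tendsto (fun i : ℕ => 2 ^ (i + m)) atTop atTop :=
        (tendsto_pow_atTop_atTop_of_one_lt (by norm_num : (1 : ℕ) < 2)).comp (tendsto_add_atTop_nat m)
      exact hlim.comp h1
    have hεp : ∀ i, 0 ≤ ε i := fun i => by positivity
    have hcard : ∀ i, (((Cf (b ^ i)).filter (fun x => F x ∉ Ty (2 ^ (i + m)))).card : ℝ) ≤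
        2 ^ (m * d) * (ε i * D ^ i) := by
      intro i
      have h1 : ((Cf (b ^ i)).filter (fun x => F x ∉ Ty (2 ^ (i + m)))).card ≤
          (Bx (2 ^ (i + m)) \ Ty (2 ^ (i + m))).card := by
        apply card_le_card_of_injOn F
        · intro x hx
          rw [mem_coe, mem_filter] at hx
          rw [mem_coe, Finset.mem_sdiff]
          exact ⟨((hF _).2 x hx.1).1 _ (hTi i), hx.2⟩
        · intro x hx x' hx' h
          rw [mem_coe, mem_filter] at hx hx'
          exact (hF (b ^ i)).1 hx.1 hx'.1 h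
      have h2 : ((Bx (2 ^ (i + m)) \ Ty (2 ^ (i + m))).card : ℝ) = 2 ^ (m * d) * (ε i * D ^ i) := by
        have h3 : 2 ^ (m * d) * (ε i * D ^ i) = ε i * (2 ^ (m * d) * D ^ i) := by ring
        rw [h3, ← hTd i, hε]
        simp only
        rw [div_mul_cancel₀]
        positivity
      rw [← h2]
      exact_mod_cast h1
    have hnum : ∀ H : ℕ, (((Cf H).filter (fun x => x ∉ A)).card : ℝ) ≤
        2 ^ (m * d) * ∑ i ∈ range (Nat.log b H + 2), ε i * D ^ i := by
      intro H
      have h1 : (Cf H).filter (fun x => x ∉ A) ⊆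
          (range (Nat.log b H + 2)).biUnion
            (fun i => (Cf (b ^ i)).filter (fun x => F x ∉ Ty (2 ^ (i + m)))) := by
        intro x hx
        obtain ⟨hx1, hx2⟩ := mem_filter.1 hx
        exact mem_biUnion.2 (hout H x hx1 hx2)
      calc (((Cf H).filter (fun x => x ∉ A)).card : ℝ)
          ≤ (((range (Nat.log b H + 2)).biUnion
              (fun i => (Cf (b ^ i)).filter (fun x => F x ∉ Ty (2 ^ (i + m))))).card : ℝ) := by
            exact_mod_cast card_le_card h1
        _ ≤ ∑ i ∈ range (Nat.log b H + 2),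
              (((Cf (b ^ i)).filter (fun x => F x ∉ Ty (2 ^ (i + m)))).card : ℝ) := by
            exact_mod_cast card_biUnion_le
        _ ≤ ∑ i ∈ range (Nat.log b H + 2), 2 ^ (m * d) * (ε i * D ^ i) :=
            sum_le_sum fun i _ => hcard i
        _ = _ := by rw [mul_sum]
    have hL : Tendsto (fun H : ℕ => Nat.log b H) atTop atTop := by
      refine tendsto_atTop.2 fun a => (eventually_ge_atTop (b ^ a)).mono fun H hH => ?_
      exact Nat.le_log_of_pow_le hb1 hH
    have hlim' := ((wavg hD2 hεp hε0).comp hL).const_mul (2 ^ (m * d) / c')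
    rw [mul_zero] at hlim'
    refine squeeze_zero' (Eventually.of_forall fun H => by positivity) ?_ hlim'
    filter_upwards [hL.eventually_ge_atTop n0, eventually_ge_atTop 1] with H hH hH1
    have h1 := hlow' _ hH H (Nat.pow_log_le_self b (by omega))
    have h2 : 0 < c' * D ^ Nat.log b H := by positivity
    simp only [Function.comp]
    have hs : 0 ≤ ∑ i ∈ range (Nat.log b H + 2), ε i * D ^ i :=
      sum_nonneg fun i _ => mul_nonneg (hεp i) (by positivity)
    calc (((Cf H).filter (fun x => x ∉ A)).card : ℝ) / (Cf H).card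
        ≤ (2 ^ (m * d) * ∑ i ∈ range (Nat.log b H + 2), ε i * D ^ i) / (c' * D ^ Nat.log b H) :=
          div_le_div₀ (mul_nonneg (by positivity) hs) (hnum H) h2 h1
      _ = 2 ^ (m * d) / c' * ((∑ i ∈ range (Nat.log b H + 2), ε i * D ^ i) / D ^ Nat.log b H) :=
          mul_div_mul_comm _ _ _ _
  · -- moments
    intro κ
    obtain ⟨M, hM0, hM⟩ := hmom κ
    have hbound : ∀ H : ℕ, ∑ x ∈ (Cf H).filter (fun x => x ∈ A), (κ : ℝ) ^ r x ≤
        M * 2 ^ (m * d) * D ^ (Nat.log b H + 2) := by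
      intro H
      set f : ℤ × ℤ → ℝ := fun x => ((2 : ℝ) ^ r' (F x)) ^ κ with hf
      have hfp : ∀ x, 0 ≤ f x := fun x => by rw [hf]; positivity
      have h1 : ∀ x : ℤ × ℤ, x ∈ Cf H → (κ : ℝ) ^ r x ≤ f x := by
        intro x hx
        rw [hf]
        simp only
        have h2 : (κ : ℝ) ^ r x ≤ ((2 : ℝ) ^ κ) ^ r x := by
          apply pow_le_pow_left₀ (Nat.cast_nonneg _)
          exact_mod_cast Nat.lt_two_pow_self.le
        refine h2.trans ?_
        rw [← pow_mul, mul_comm, pow_mul]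
        apply pow_le_pow_left₀ (by positivity)
        exact pow_le_pow_right₀ (by norm_num) ((hF H).2 x hx).2
      calc ∑ x ∈ (Cf H).filter (fun x => x ∈ A), (κ : ℝ) ^ r x
          ≤ ∑ x ∈ (Cf H).filter (fun x => x ∈ A), f x :=
            sum_le_sum fun x hx => h1 x (mem_filter.1 hx).1
        _ ≤ ∑ i ∈ range (Nat.log b H + 2), ∑ x ∈ ((Cf H).filter (fun x => x ∈ A)).filter
              (fun x => x ∈ Cf (b ^ i) ∧ F x ∈ Ty (2 ^ (i + m))), f x := by
            refine sum_cover _ _ f hfp (fun i x => x ∈ Cf (b ^ i) ∧ F x ∈ Ty (2 ^ (i + m))) ?_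
            intro x hx
            obtain ⟨hx1, hx2⟩ := mem_filter.1 hx
            obtain ⟨i, hi, hxi⟩ := hin H x hx1 hx2
            exact ⟨i, hi, mem_filter.1 hxi⟩
        _ ≤ ∑ i ∈ range (Nat.log b H + 2), M * (2 ^ (m * d) * D ^ i) := by
            apply sum_le_sum
            intro i _
            have hinj : Set.InjOn F (((Cf H).filter (fun x => x ∈ A)).filter
                (fun x => x ∈ Cf (b ^ i) ∧ F x ∈ Ty (2 ^ (i + m))) : Set (ℤ × ℤ)) := by
              intro x hx x' hx' h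
              rw [mem_coe, mem_filter] at hx hx'
              exact (hF (b ^ i)).1 hx.2.1 hx'.2.1 h
            calc ∑ x ∈ ((Cf H).filter (fun x => x ∈ A)).filter
                  (fun x => x ∈ Cf (b ^ i) ∧ F x ∈ Ty (2 ^ (i + m))), f x
                = ∑ t ∈ (((Cf H).filter (fun x => x ∈ A)).filter
                  (fun x => x ∈ Cf (b ^ i) ∧ F x ∈ Ty (2 ^ (i + m)))).image F,
                    ((2 : ℝ) ^ r' t) ^ κ := by
                  rw [sum_image hinj]
              _ ≤ ∑ t ∈ Ty (2 ^ (i + m)), ((2 : ℝ) ^ r' t) ^ κ := by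
                  apply sum_le_sum_of_subset_of_nonneg
                  · intro t ht
                    obtain ⟨x, hx, rfl⟩ := mem_image.1 ht
                    exact (mem_filter.1 hx).2.2
                  · intro t _ _; positivity
              _ ≤ M * (((2 ^ (i + m) : ℕ) : ℝ)) ^ d := hM _ Nat.one_le_two_pow
              _ = _ := by rw [hTd i]
        _ = M * 2 ^ (m * d) * ∑ i ∈ range (Nat.log b H + 2), D ^ i := by
            rw [mul_sum]
            apply sum_congr rfl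
            intro i _
            ring
        _ ≤ _ := mul_le_mul_of_nonneg_left (geo hD2 _) (by positivity)
    refine ⟨M * 2 ^ (m * d) * D ^ 2 / c' + M * 2 ^ (m * d) * D ^ (n0 + 2), fun H => ?_⟩
    by_cases hK : (Cf H).card = 0
    · rw [card_eq_zero.1 hK]
      simp
    have hK1 : (1 : ℝ) ≤ (Cf H).card := by exact_mod_cast Nat.one_le_iff_ne_zero.2 hK
    have p1 : 0 ≤ M * 2 ^ (m * d) * D ^ 2 / c' := by positivity
    have p2 : 0 ≤ M * 2 ^ (m * d) * D ^ (n0 + 2) := by positivity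
    have p3 : 0 ≤ M * 2 ^ (m * d) := by positivity
    by_cases hsz : n0 ≤ Nat.log b H ∧ H ≠ 0
    · have h1 := hlow' _ hsz.1 H (Nat.pow_log_le_self b hsz.2)
      calc _ ≤ M * 2 ^ (m * d) * D ^ (Nat.log b H + 2) := hbound H
        _ = M * 2 ^ (m * d) * D ^ 2 / c' * (c' * D ^ (Nat.log b H)) := by
            rw [pow_add]
            field_simp
        _ ≤ M * 2 ^ (m * d) * D ^ 2 / c' * (Cf H).card := mul_le_mul_of_nonneg_left h1 p1
        _ ≤ _ := by
            apply mul_le_mul_of_nonneg_right _ (by linarith)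
            linarith
    · have hlt : Nat.log b H ≤ n0 := by
        by_contra hcon
        push Not at hcon
        apply hsz
        refine ⟨hcon.le, ?_⟩
        rintro rfl
        simp at hcon
      calc _ ≤ M * 2 ^ (m * d) * D ^ (Nat.log b H + 2) := hbound H
        _ ≤ M * 2 ^ (m * d) * D ^ (n0 + 2) := by
            apply mul_le_mul_of_nonneg_left _ p3
            exact pow_le_pow_right₀ (by linarith) (by omega)
        _ ≤ M * 2 ^ (m * d) * D ^ (n0 + 2) * (Cf H).card := le_mul_of_one_le_right p2 hK1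
        _ ≤ _ := by
            apply mul_le_mul_of_nonneg_right _ (by linarith)
            linarith

end Pool.Agent.LLead.TU
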